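import Pool.Agent.W647.HX2

/-!
# The higher even Chern character of projective modules over group rings and graded rings

Let `G` be any group, `R` any ring and `S = R[G]`, or more generally let `S` be any ring graded by
`G`, with homogeneous components `𝒮 s`, `s ∈ G` (for example a skew group ring or a crossed product
`R * G`). The class in `K₀(S)` of an idempotent matrix `e` over `S`, with homogeneous components
`e_s`, has a Chern character in the even cyclic homology of `S`; its component of degree `2k` at the
conjugacy class of `g ∈ G` has values in the homology of `C(g) / ⟨g⟩` of degree `2k` with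
coefficients in `S / [S, S]`. It is determined by the numbers

`τ = ∑ T (tr (e_{w 0} e_{w 1} ⋯ e_{w (2k)}), c (t, t w₀, t w₀ w₁, …, t w₀ ⋯ w_{2k-1}))`,

the sum over all `w ∈ G ^ (2k+1)` with product `y` conjugate to `g`, where `t = t y` conjugates `y`
to `g`, `c` is an alternating homogeneous cocycle of degree `2k` with values in an abelian group `A`,
invariant under the centralizer of `g` and under `g` in each single variable (`IsClassCoc g c`), and
`T : S × A → M` is biadditive with `T (x y, a) = T (y x, a)`. For `g = 1` these are all alternating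
homogeneous cocycles, and the classes in `H^{2k}(G; A)`.

If `K₀(R) → K₀(R[G])` is onto, as Q1 asks for torsion-free `G` and regular `R`, then these numbers
are zero for `k ≥ 1` on `K₀(R[G])`. We prove for *all* groups `G`, also with torsion, all rings `R`,
and all graded rings `S`, with all coefficients: for `k ≥ 1` and all `g` of finite order the number
`(2k)! / k! * τ` is divisible by all `N ≥ 1` in `M`. So `(2k)! / k! * τ = 0` if `0` is the only
element of `M` which is divisible by all `N ≥ 1`, for example for `R = ℤ` and `M` free abelian, and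
`τ = 0` if `N M = 0` for some `N` prime to `(2k)! / k!`.

The theorem `graded_even` of the starting file `Pool/Agent/W647/HX2.lean` was not handed in before
(a starting hand-in, `MP_16fe43_al.CocyclePairing`, treats torsion-free `G`, commutative `R`, `g = 1`,
and torsion-free `M`, and primes which are not orders of elements).
-/

set_option autoImplicit false

namespace Pool.Agent.Results.MP_1a2884_al.GradedEvenChern

open Pool.Agent.W647.HX1

universe u1 u2 u3 u4 u5

/-- Let `S` be a ring graded by the group `G`, `T : S × A → M` biadditive with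
`T (x y, a) = T (y x, a)`, `e` an idempotent matrix over `S`, `g ∈ G` of finite order, `k ≥ 1`, `c` a
class cocycle of degree `2k` at `g` with values in `A`, and `τ` the value of the component at the
conjugacy class of `g` of the Chern character of `e`.

(1) `(2k)! / k! * τ` is divisible in `M` by all `N ≥ 1`. (2) `τ = 0` if `N M = 0` for some `N ≥ 1`
which is prime to `(2k)! / k!`. (3) If `0` is the only element of `M` which is divisible by all
`N ≥ 1`, then `(2k)! / k! * τ = 0`. -/
theorem result (G : Type u1) [Group G] [DecidableEq G] (S : Type u2) [Ring S]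
    (𝒮 : G → AddSubgroup S) [DirectSum.Decomposition 𝒮] (h1 : (1 : S) ∈ 𝒮 1)
    (hmul : ∀ g h : G, ∀ x ∈ 𝒮 g, ∀ y ∈ 𝒮 h, x * y ∈ 𝒮 (g * h))
    (A : Type u3) [AddCommGroup A] (M : Type u4) [AddCommGroup M] (T : S →+ A →+ M)
    (hT : ∀ x y, T (x * y) = T (y * x)) (d : Type u5) [Fintype d] [DecidableEq d]
    (e : Matrix d d S) (he : e * e = e) (g : G) (hg : IsOfFinOrder g) (t : G → G)
    (ht : ∀ y, IsConj y g → t y * y * (t y)⁻¹ = g) (k : ℕ) (hk : 1 ≤ k)
    (c : (Fin (2 * k + 1) → G) → A) (hc : IsClassCoc g c) :
    (∀ N : ℕ, N ≠ 0 →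
      ∃ y : M, (2 * k).descFactorial k • evTau T g t c (gc 𝒮 e) = N • y) ∧
    (∀ N : ℕ, N ≠ 0 → (∀ y : M, N • y = 0) → N.Coprime ((2 * k).descFactorial k) →
      evTau T g t c (gc 𝒮 e) = 0) ∧
    ((∀ x : M, (∀ N : ℕ, N ≠ 0 → ∃ y, x = N • y) → x = 0) →
      (2 * k).descFactorial k • evTau T g t c (gc 𝒮 e) = 0) := by
  have h2 : ∀ N : ℕ, N ≠ 0 →
      ∃ y : M, (2 * k).descFactorial k • evTau T g t c (gc 𝒮 e) = N • y := fun N hN =>
    graded_even 𝒮 h1 hmul T hT hg ht (by omega) hc e he N hN
  refine ⟨h2, fun N hN hM hcop => ?_, fun hM => hM _ h2⟩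
  obtain ⟨y, hy⟩ := h2 N hN
  rw [hM] at hy
  have h3 := Nat.gcd_eq_gcd_ab N ((2 * k).descFactorial k)
  rw [hcop] at h3
  have h4 : ((N : ℤ) * (Nat.gcdA N ((2 * k).descFactorial k)) +
      (((2 * k).descFactorial k : ℕ) : ℤ) * (Nat.gcdB N ((2 * k).descFactorial k))) •
        evTau T g t c (gc 𝒮 e) = evTau T g t c (gc 𝒮 e) := by
    rw [← h3, Nat.cast_one, one_smul]
  rw [add_smul, mul_smul, natCast_zsmul, hM, zero_add, mul_smul, natCast_zsmul, smul_comm, hy,
    smul_zero] at h4
  exact h4.symm

end Pool.Agent.Results.MP_1a2884_al.GradedEvenChern
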