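import Pool.Agent.TH357.EN.E8

set_option autoImplicit false

noncomputable section

namespace Pool.Agent.Results.MP_1a2884_al.SmallNormIdempotents

open MonoidAlgebra

/-- the sum of the norms of the coefficients of an element of a group ring -/
def norm1 {𝔸 G : Type*} [NormedRing 𝔸] [Group G] (x : MonoidAlgebra 𝔸 G) : ℝ :=
  ∑ g ∈ x.coeff.support, ‖x.coeff g‖

/-- the sum of the coefficients of an element of a group ring -/
def augm {𝔸 G : Type*} [NormedRing 𝔸] [Group G] (x : MonoidAlgebra 𝔸 G) : 𝔸 :=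
  ∑ g ∈ x.coeff.support, x.coeff g

theorem result {G : Type*} [Group G] (htf : ∀ g : G, IsOfFinOrder g → g = 1)
    {𝔸 : Type*} [NormedRing 𝔸] (e : MonoidAlgebra 𝔸 G) (he : e * e = e)
    (hM : norm1 e ≤ 28 / 25) :
    augm e * augm e = augm e ∧
    norm1 (e - single 1 (augm e)) < 7 / 25 ∧
    (∃ u : MonoidAlgebra 𝔸 G, single 1 (augm e) * u = u * e ∧
      ∀ δ : ℝ, 0 < δ → ∃ v : MonoidAlgebra 𝔸 G, u * v = v * u ∧ norm1 (u * v - 1) < δ) ∧
    (∀ {B : Type*} [NormedAddCommGroup B] (t : 𝔸 →+ B) (C : ℝ), (∀ a, ‖t a‖ ≤ C * ‖a‖) →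
      (∀ a b, t (a * b) = t (b * a)) → ∀ g : G, open Classical in
        ∑ h ∈ e.coeff.support with IsConj g h, t (e.coeff h)
          = if g = 1 then t (augm e) else 0) :=
  ⟨TH357EN.aug_idem' e he, TH357EN.close htf e he hM, TH357EN.small_conj htf e he hM,
    fun t C ht htc g => TH357EN.small_trace htf e he hM t C ht htc g⟩

end Pool.Agent.Results.MP_1a2884_al.SmallNormIdempotents
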