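import Pool.Agent.TH6.PF.KSt

set_option autoImplicit false

/-! For every ring `R` and every group `G`, an `RG`-module with a presentation matrix whose support
pattern has operator norm less than `3 / √2` is a direct sum of modules induced from virtually
cyclic (cyclic, if `G` is torsion-free) subgroups. -/

namespace Pool.Agent.Results.MP_1a2884_al.ThinModules

open TH57.Thr TH6.PF Matrix

theorem result (R : Type) [Ring R] (G : Type) [Group G] (c : ℝ) (hc0 : 0 < c)
    (hc : c ^ 2 < 9 / 2) (P : Type) [AddCommGroup P] [Module (MonoidAlgebra R G) P]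
    (m n : ℕ) (A : Matrix (Fin m) (Fin n) (MonoidAlgebra R G))
    (e : P ≃ₗ[MonoidAlgebra R G] Coker A) (hA : ThinLE A c) : VCSum R G P :=
  thin_VCSum R G P m n A e c hc0 hc hA

end Pool.Agent.Results.MP_1a2884_al.ThinModules
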