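import Pool.Agent.TH6.PF.KSt

set_option autoImplicit false

/-! Over a field `K` and for a torsion-free group `G`, a projective `KG`-module with a presentation
matrix whose support pattern has operator norm less than `3 / √2` is free. -/

namespace Pool.Agent.Results.MP_1a2884_al.ThinProjectivesFree

open TH57.Thr TH6.PF Matrix

theorem result (K : Type) [Field K] (G : Type) [Group G] (htf : TF G) (c : ℝ) (hc0 : 0 < c)
    (hc : c ^ 2 < 9 / 2) (P : Type) [AddCommGroup P] [Module (MonoidAlgebra K G) P]
    (hP : Module.Projective (MonoidAlgebra K G) P)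
    (m n : ℕ) (A : Matrix (Fin m) (Fin n) (MonoidAlgebra K G))
    (e : P ≃ₗ[MonoidAlgebra K G] Coker A) (hA : ThinLE A c) :
    Module.Free (MonoidAlgebra K G) P :=
  thin_free K G htf P hP m n A e c hc0 hc hA

end Pool.Agent.Results.MP_1a2884_al.ThinProjectivesFree
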